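import Pool.Agent.L0h18.LZ.Geo2
import Pool.Agent.L0h10.LZ.MINK
import Pool.Agent.L0h92.LZ.BAS
import Pool.Agent.L0h92.LZ.VERT
import Pool.Agent.L0h31.LZ.FIN
import Pool.Agent.L0h48.LZ.AUT
import Pool.Agent.L0h48.LZ.CUSP
import Pool.Agent.L0h97.LZ.RIG

/-!
# LZ: the modules
-/

set_option autoImplicit false

namespace Pool.Agent.L0h18.LZ

theorem mods : Mods :=
  ⟨Pool.Agent.L0h92.LZ.t_BAS, Pool.Agent.L0h10.LZ.mink, Pool.Agent.L0h92.LZ.t_VERT, Pool.Agent.L0h31.LZ.FIN.fin,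
    Pool.Agent.L0h97.LZ.rig, Pool.Agent.L0h48.LZ.aut, Pool.Agent.L0h48.LZ.cusp⟩

end Pool.Agent.L0h18.LZ
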