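import Pool.Agent.L0h18.LZ.Stm2
import Pool.Agent.L0h18.CO.Conv
import Pool.Agent.Y167.Cone

/-!
# LZ: coverings and rigidity from the modules
-/

set_option autoImplicit false

open Pool.Agent.Y167 (cone cone_image cone_ind zero_mem_cone mem_cone_self cone_add cone_smul cone_mono cone_le)
open Pool.Agent.N165.KM (IntL)
open Pool.Agent.N110.CC (PC)
open Pool.Agent.L0h18.CO
open Topology

namespace Pool.Agent.L0h18.LZ

variable {ρ : ℕ} {B : Matrix (Fin ρ) (Fin ρ) ℤ} {h : Fin ρ → ℝ} {𝒢 : Set ((Fin ρ → ℝ) ≃ₗ[ℝ] (Fin ρ → ℝ))}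

theorem iso_pts (hb : S_BAS) (hB : Lorentz B h) {T : (Fin ρ → ℝ) ≃ₗ[ℝ] (Fin ρ → ℝ)} (hT : T ∈ IsoZ B h)
    {v : Fin ρ → ℝ} (hv : v ∈ Pts B h) : T v ∈ Pts B h := by
  obtain ⟨-, -, -, -, -, -, -, -, -, -, -, -, -, iso, -, -⟩ := hb ρ B h hB
  refine ⟨hT.1 v hv.1, fun h0 => hv.2.1 ?_, ((iso T hT).2 v).2 hv.2.2⟩
  exact T.injective (by rw [h0, map_zero])

theorem cone_T {T : (Fin ρ → ℝ) ≃ₗ[ℝ] (Fin ρ → ℝ)} {F F' : Finset (Fin ρ → ℝ)} (hF : ∀ v ∈ F, T v ∈ F')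
    {x : Fin ρ → ℝ} (hx : x ∈ cone F) : T x ∈ cone F' := by
  classical
  refine cone_ind (S := F) (p := fun z => T z ∈ cone F') ?_ ?_ ?_ ?_ hx
  · show T 0 ∈ cone F'
    rw [map_zero]
    exact zero_mem_cone F'
  · intro a b ha hb
    show T (a + b) ∈ cone F'
    rw [map_add]
    exact cone_add ha hb
  · intro t a ht ha
    show T (t • a) ∈ cone F'
    rw [map_smul]
    exact cone_smul ha ht
  · intro a ha
    exact mem_cone_self (hF a ha)

/-- **covering**: translates of finitely many integral vectors generate the open cone -/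
theorem cov (hb : S_BAS) (hm : S_MINK) (hv : S_VERT) (hf : S_FIN) (hB : Lorentz B h) (hG : FinIdx B h 𝒢) :
    ∃ F : Finset (Fin ρ → ℝ), (∀ v ∈ F, v ∈ Pts B h) ∧ ∀ x ∈ pcone B h, ∃ T ∈ 𝒢, T x ∈ cone F := by
  classical
  obtain ⟨hfin, U, hU, hUv, hUall⟩ := hf hb hm ρ B h hB
  obtain ⟨R, hR, hRs, hRall⟩ := hG.idx
  have hact : ∀ u ∈ U, {v | v ∈ Pts B h ∧ bil B u v = 1}.Finite := fun u hu => hfin u (hUv u hu).mem
  have hbig : (⋃ r ∈ R, ⋃ u ∈ U, (fun v => r v) '' {v | v ∈ Pts B h ∧ bil B u v = 1}).Finite :=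
    hR.biUnion fun r _ => hU.biUnion fun u hu => (hact u hu).image _
  refine ⟨hbig.toFinset, fun v hv => ?_, fun x hx => ?_⟩
  · rw [Set.Finite.mem_toFinset] at hv
    simp only [Set.mem_iUnion] at hv
    obtain ⟨r, hr, u, hu, w, hw, rfl⟩ := hv
    exact iso_pts hb hB (hRs hr) hw.1
  · obtain ⟨u, hu, F, hF, hxF⟩ := hv hb hm ρ B h hB x hx
    obtain ⟨T, hT, u₀, hu₀, hTu⟩ := hUall u hu
    obtain ⟨S, hS, r, hr, hTS⟩ := hRall T hT
    refine ⟨S⁻¹, hG.inv S hS, cone_T (F := F) (fun v hv => ?_) hxF⟩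
    rw [Set.Finite.mem_toFinset]
    simp only [Set.mem_iUnion]
    have hTi : T⁻¹ ∈ IsoZ B h := by
      obtain ⟨-, -, -, -, -, -, -, -, -, -, -, -, -, -, inv, -⟩ := hb ρ B h hB
      exact inv T hT
    refine ⟨r, hr, u₀, hu₀, T⁻¹ v, ⟨iso_pts hb hB hTi (hF v hv).1, ?_⟩, ?_⟩
    · have h1 := hTi.2.2.1 (T u₀) v
      have h2 : T⁻¹ (T u₀) = u₀ := by
        rw [← LinearEquiv.mul_apply, inv_mul_cancel]
        rfl
      rw [h2] at h1
      rw [h1, hTu]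
      exact (hF v hv).2
    · show r (T⁻¹ v) = S⁻¹ v
      rw [hTS, mul_inv_rev, LinearEquiv.mul_apply, ← LinearEquiv.mul_apply, mul_inv_cancel]
      rfl

/-- cocompactness in the anisotropic case -/
theorem cocompact (hb : S_BAS) (hm : S_MINK) (hv : S_VERT) (hf : S_FIN) (hB : Lorentz B h) (hG : FinIdx B h 𝒢)
    (hani : ∀ e ∈ Pts B h, bil B e e ≠ 0) : Cocompact 𝒢 (pcone B h) := by
  classical
  obtain ⟨-, -, -, -, hop, hcl, hint, -, -, -, -, -, -, -, -, -⟩ := hb ρ B h hB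
  obtain ⟨F, hF, hFc⟩ := cov hb hm hv hf hB hG
  have hFp : ∀ v ∈ F, v ∈ pcone B h := by
    intro v hv
    have h1 := hF v hv
    have h2 : 0 < bil B v v := lt_of_le_of_ne h1.2.2.1 (Ne.symm (hani v h1))
    refine ⟨h2, lt_of_le_of_ne h1.2.2.2 fun h0 => ?_⟩
    have h3 := hB.neg v h0.symm h1.2.1
    linarith
  have hconv : Convex ℝ (pcone B h) := by
    intro a ha b hb' s t hs ht hst
    rcases hs.eq_or_lt with h0 | h0
    · rw [← h0, zero_smul, zero_add]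
      rw [← h0, zero_add] at hst
      rw [hst, one_smul]
      exact hb'
    · rcases ht.eq_or_lt with h1 | h1
      · rw [← h1, zero_smul, add_zero]
        rw [← h1, add_zero] at hst
        rw [hst, one_smul]
        exact ha
      · exact hop.add _ (hop.smul s h0 a ha) _ (hop.smul t h1 b hb')
  refine ⟨convexHull ℝ (F : Set (Fin ρ → ℝ)), F.finite_toSet.isCompact_convexHull ℝ,
    convexHull_min (fun v hv => hFp v hv) hconv, fun x hx => ?_⟩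
  obtain ⟨T, hT, a, ha, hxa⟩ := hFc x hx
  obtain ⟨σ, hσ⟩ : ∃ σ : ℝ, σ = ∑ s ∈ F, a s := ⟨_, rfl⟩
  have hx0 : x ≠ 0 := by
    intro h0
    have := hx.1
    rw [h0] at this
    simp [bil] at this
  have hσ0 : 0 ≤ σ := by rw [hσ]; exact Finset.sum_nonneg fun s _ => ha s
  have hσpos : 0 < σ := by
    refine lt_of_le_of_ne hσ0 fun h' => hx0 ?_
    rw [hσ] at h'
    have h3 : T x = 0 := by
      rw [hxa]
      refine Finset.sum_eq_zero fun s hs => ?_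
      rw [(Finset.sum_eq_zero_iff_of_nonneg fun s _ => ha s).1 h'.symm s hs, zero_smul]
    exact T.injective (by rw [h3, map_zero])
  refine ⟨T, hT, σ⁻¹, inv_pos.2 hσpos, ?_⟩
  rw [hxa, Finset.smul_sum]
  have h3 : ∀ s ∈ F, σ⁻¹ • a s • s = (σ⁻¹ * a s) • s := fun s _ => smul_smul _ _ _
  rw [Finset.sum_congr rfl h3]
  refine (convex_convexHull ℝ _).sum_mem (fun s _ => mul_nonneg (inv_nonneg.2 hσ0) (ha s)) ?_
    fun s hs => subset_convexHull ℝ _ hs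
  rw [← Finset.mul_sum, ← hσ, inv_mul_cancel₀ hσpos.ne']

/-- **rigidity** -/
theorem rig_all (hb : S_BAS) (hm : S_MINK) (hv : S_VERT) (hf : S_FIN) (hr : S_RIG) (hB : Lorentz B h)
    (hG : FinIdx B h 𝒢) (hρ : 3 ≤ ρ ∨ ∀ e ∈ Pts B h, bil B e e ≠ 0) {D : Set (Fin ρ → ℝ)} (hDc : IsClosed D)
    (hDa : ∀ x ∈ D, ∀ z ∈ D, x + z ∈ D) (hDs : ∀ t : ℝ, 0 ≤ t → ∀ x ∈ D, t • x ∈ D)
    (hDp : ∀ x ∈ D, -x ∈ D → x = 0) (hDG : ∀ T ∈ 𝒢, ∀ x ∈ D, T x ∈ D) (hne : (D ∩ pcone B h).Nonempty) :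
    D = ncone B h := by
  by_cases hani : ∀ e ∈ Pts B h, bil B e e ≠ 0
  · obtain ⟨-, -, -, -, hop, hcl, hint, hadd, -, -, -, -, -, iso, -, -⟩ := hb ρ B h hB
    have hco := cocompact hb hm hv hf hB hG hani
    have hsub : 𝒢 ⊆ IsoZ B h := hG.sub
    have hsym : ∀ T ∈ 𝒢, T.symm ∈ 𝒢 := fun T hT => hG.inv T hT
    have hpG : ∀ T ∈ 𝒢, ∀ x ∈ pcone B h, T x ∈ pcone B h := fun T hT x hx => ((iso T (hsub hT)).1 x).2 hx
    obtain ⟨x₀, hx₀D, hx₀⟩ := hne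
    have h1 : closure (pcone B h) ⊆ D := rigid hop hsym hpG hco hDc hDa hDs hDG hx₀ hx₀D
    have hPC : PC D := ⟨hDc, hDa, hDs, hDp⟩
    have hlat : Lat 𝒢 D := ⟨fun T hT => (hsub hT).1, hDG, hsym⟩
    have h2 : pcone B h = interior D := eq_interior hPC hlat hop.isOpen ⟨x₀, hx₀⟩ (subset_closure.trans h1) hop.smul hpG
      hco
    refine Set.Subset.antisymm ?_ (by rw [← hcl]; exact h1)
    intro x hx
    rw [← hcl]
    have hlim : Filter.Tendsto (fun k : ℕ => x + (1 / ((k : ℝ) + 1)) • x₀) Filter.atTop (𝓝 (x + (0 : ℝ) • x₀)) :=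
      tendsto_const_nhds.add (tendsto_one_div_add_atTop_nhds_zero_nat.smul_const _)
    rw [zero_smul, add_zero] at hlim
    refine mem_closure_of_tendsto hlim (Filter.Eventually.of_forall fun k => ?_)
    rw [h2, add_comm]
    have h3 : (1 / ((k : ℝ) + 1)) • x₀ ∈ interior D :=
      Pool.Agent.N165.KM.interior_smul_mem hDs (by positivity) (by rw [← h2]; exact hx₀)
    exact Pool.Agent.N165.KM.interior_add_mem hDa h3 hx
  · push Not at hani
    rcases hρ with hρ | hρ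
    · obtain ⟨e, he, he0⟩ := hani
      exact hr hb ρ B h hB hρ 𝒢 hG ⟨e, he, he0⟩ D hDc hDa hDs hDp hDG hne
    · obtain ⟨e, he, he0⟩ := hani
      exact absurd he0 (hρ e he)

end Pool.Agent.L0h18.LZ
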