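import Pool.Agent.N165.KM.Basic
import Pool.Agent.L0h18.CO.Defs

/-!
# LZ: integral quadratic forms of signature `(1, ρ - 1)` and groups of integral isometries
-/

set_option autoImplicit false

open Pool.Agent.Y167 (cone)
open Pool.Agent.N165.KM (IntL)
open Topology

namespace Pool.Agent.L0h18.LZ

variable {ρ : ℕ}

/-- the bilinear form with the integral Gram matrix `B` -/
def bil (B : Matrix (Fin ρ) (Fin ρ) ℤ) (x y : Fin ρ → ℝ) : ℝ := ∑ i, ∑ j, (B i j : ℝ) * x i * y j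

/-- `B` is symmetric, `h` is positive and `B` is negative definite on the orthogonal complement of `h` -/
structure Lorentz (B : Matrix (Fin ρ) (Fin ρ) ℤ) (h : Fin ρ → ℝ) : Prop where
  symm : ∀ i j, B i j = B j i
  pos : 0 < bil B h h
  neg : ∀ x, bil B x h = 0 → x ≠ 0 → bil B x x < 0

/-- the component of the cone of positive vectors which contains `h` -/
def pcone (B : Matrix (Fin ρ) (Fin ρ) ℤ) (h : Fin ρ → ℝ) : Set (Fin ρ → ℝ) := {x | 0 < bil B x x ∧ 0 < bil B x h}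

/-- the closed cone -/
def ncone (B : Matrix (Fin ρ) (Fin ρ) ℤ) (h : Fin ρ → ℝ) : Set (Fin ρ → ℝ) := {x | 0 ≤ bil B x x ∧ 0 ≤ bil B x h}

/-- the nonzero integral vectors of the closed cone -/
def Pts (B : Matrix (Fin ρ) (Fin ρ) ℤ) (h : Fin ρ → ℝ) : Set (Fin ρ → ℝ) := {v | v ∈ IntL ρ ∧ v ≠ 0 ∧ v ∈ ncone B h}

/-- the integral isometries which preserve the cone -/
def IsoZ (B : Matrix (Fin ρ) (Fin ρ) ℤ) (h : Fin ρ → ℝ) : Set ((Fin ρ → ℝ) ≃ₗ[ℝ] (Fin ρ → ℝ)) :=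
  {T | (∀ x ∈ IntL ρ, T x ∈ IntL ρ) ∧ (∀ x ∈ IntL ρ, T.symm x ∈ IntL ρ) ∧
    (∀ x y, bil B (T x) (T y) = bil B x y) ∧ 0 < bil B (T h) h}

/-- a subgroup of finite index of the group of integral isometries -/
structure FinIdx (B : Matrix (Fin ρ) (Fin ρ) ℤ) (h : Fin ρ → ℝ) (𝒢 : Set ((Fin ρ → ℝ) ≃ₗ[ℝ] (Fin ρ → ℝ))) :
    Prop where
  sub : 𝒢 ⊆ IsoZ B h
  mul : ∀ S ∈ 𝒢, ∀ T ∈ 𝒢, S * T ∈ 𝒢
  inv : ∀ T ∈ 𝒢, T⁻¹ ∈ 𝒢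
  idx : ∃ R : Set ((Fin ρ → ℝ) ≃ₗ[ℝ] (Fin ρ → ℝ)), R.Finite ∧ R ⊆ IsoZ B h ∧ ∀ T ∈ IsoZ B h, ∃ S ∈ 𝒢, ∃ r ∈ R,
    T = S * r

/-- a vertex of the polyhedron `{u | bil u v ≥ 1 for all v ∈ Pts}` -/
structure Vtx (B : Matrix (Fin ρ) (Fin ρ) ℤ) (h : Fin ρ → ℝ) (u : Fin ρ → ℝ) : Prop where
  mem : u ∈ pcone B h
  ge : ∀ v ∈ Pts B h, 1 ≤ bil B u v
  span : Submodule.span ℝ {v | v ∈ Pts B h ∧ bil B u v = 1} = ⊤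

/-! ### the modules -/

/-- BAS: the geometry of the cone -/
def S_BAS : Prop := ∀ (ρ : ℕ) (B : Matrix (Fin ρ) (Fin ρ) ℤ) (h : Fin ρ → ℝ), Lorentz B h →
  -- signs
  (∀ x ∈ pcone B h, ∀ y ∈ ncone B h, y ≠ 0 → 0 < bil B x y) ∧ (∀ x ∈ ncone B h, ∀ y ∈ ncone B h, 0 ≤ bil B x y) ∧
  (∀ x ∈ ncone B h, ∀ y ∈ ncone B h, x ≠ 0 → bil B x y = 0 → ∃ t : ℝ, 0 ≤ t ∧ y = t • x) ∧
  -- self-duality
  (∀ x, (∀ y ∈ ncone B h, 0 ≤ bil B x y) → x ∈ ncone B h) ∧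
  -- topology
  Pool.Agent.L0h18.CO.IsOpenCone (pcone B h) ∧ closure (pcone B h) = ncone B h ∧ interior (ncone B h) = pcone B h ∧
  (∀ x ∈ ncone B h, ∀ y ∈ ncone B h, x + y ∈ ncone B h) ∧
  -- nondegenerate
  (∀ x, (∀ y, bil B x y = 0) → x = 0) ∧
  -- bounds
  (∀ u ∈ pcone B h, ∃ c : ℝ, 0 < c ∧ ∀ x ∈ ncone B h, c * ‖x‖ ≤ bil B u x) ∧
  (∀ u ∈ pcone B h, ∀ d, ∃ C : ℝ, 0 < C ∧ ∀ x ∈ ncone B h, |bil B d x| ≤ C * bil B u x) ∧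
  -- the positive definite form attached to `u`
  (∀ u ∈ pcone B h, bil B u u = 1 → ∀ x, x ≠ 0 → 0 < 2 * bil B u x ^ 2 - bil B x x) ∧
  (∀ u ∈ pcone B h, bil B u u = 1 → ∀ x ∈ ncone B h, ∀ y ∈ ncone B h, |bil B x y| ≤ 2 * bil B u x * bil B u y) ∧
  -- isometries
  (∀ T ∈ IsoZ B h, (∀ x, T x ∈ pcone B h ↔ x ∈ pcone B h) ∧ (∀ x, T x ∈ ncone B h ↔ x ∈ ncone B h)) ∧
  (∀ T ∈ IsoZ B h, T⁻¹ ∈ IsoZ B h) ∧ (∀ S ∈ IsoZ B h, ∀ T ∈ IsoZ B h, S * T ∈ IsoZ B h)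

/-- MINK: an integral vector of bounded height in the cone, uniformly in `u` -/
def S_MINK : Prop := S_BAS → ∀ (ρ : ℕ) (B : Matrix (Fin ρ) (Fin ρ) ℤ) (h : Fin ρ → ℝ), Lorentz B h →
  ∃ R : ℝ, 0 < R ∧ ∀ u ∈ pcone B h, bil B u u = 1 → ∃ v ∈ Pts B h, bil B u v ≤ R

/-- VERT: every vector of the open cone is in the cone generated by the active vectors of a vertex -/
def S_VERT : Prop := S_BAS → S_MINK → ∀ (ρ : ℕ) (B : Matrix (Fin ρ) (Fin ρ) ℤ) (h : Fin ρ → ℝ), Lorentz B h →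
  ∀ x ∈ pcone B h, ∃ u, Vtx B h u ∧ ∃ F : Finset (Fin ρ → ℝ), (∀ v ∈ F, v ∈ Pts B h ∧ bil B u v = 1) ∧ x ∈ cone F

/-- FIN: there are only finitely many vertices up to integral isometries, and finitely many active vectors -/
def S_FIN : Prop := S_BAS → S_MINK → ∀ (ρ : ℕ) (B : Matrix (Fin ρ) (Fin ρ) ℤ) (h : Fin ρ → ℝ), Lorentz B h →
  (∀ u ∈ pcone B h, {v | v ∈ Pts B h ∧ bil B u v = 1}.Finite) ∧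
  ∃ U : Set (Fin ρ → ℝ), U.Finite ∧ (∀ u ∈ U, Vtx B h u) ∧ ∀ u, Vtx B h u → ∃ T ∈ IsoZ B h, ∃ u₀ ∈ U, T u₀ = u

/-- RIG: rigidity in the isotropic case -/
def S_RIG : Prop := S_BAS → ∀ (ρ : ℕ) (B : Matrix (Fin ρ) (Fin ρ) ℤ) (h : Fin ρ → ℝ), Lorentz B h → 3 ≤ ρ →
  ∀ (𝒢 : Set ((Fin ρ → ℝ) ≃ₗ[ℝ] (Fin ρ → ℝ))), FinIdx B h 𝒢 → (∃ e ∈ Pts B h, bil B e e = 0) →
  ∀ D : Set (Fin ρ → ℝ), IsClosed D → (∀ x ∈ D, ∀ z ∈ D, x + z ∈ D) → (∀ t : ℝ, 0 ≤ t → ∀ x ∈ D, t • x ∈ D) →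
    (∀ x ∈ D, -x ∈ D → x = 0) → (∀ T ∈ 𝒢, ∀ x ∈ D, T x ∈ D) → (D ∩ pcone B h).Nonempty → D = ncone B h

/-- AUT: integral automorphisms of the cone are isometries -/
def S_AUT : Prop := S_BAS → ∀ (ρ : ℕ) (B : Matrix (Fin ρ) (Fin ρ) ℤ) (h : Fin ρ → ℝ), Lorentz B h →
  ∀ T : (Fin ρ → ℝ) ≃ₗ[ℝ] (Fin ρ → ℝ), (∀ x ∈ IntL ρ, T x ∈ IntL ρ) → (∀ x ∈ IntL ρ, T.symm x ∈ IntL ρ) →
    (∀ x, T x ∈ pcone B h ↔ x ∈ pcone B h) → T ∈ IsoZ B h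

/-- CUSP: if translates of a rational polyhedral cone cover `E`, then all integral isotropic classes are in `E` -/
def S_CUSP : Prop := S_BAS → ∀ (ρ : ℕ) (B : Matrix (Fin ρ) (Fin ρ) ℤ) (h : Fin ρ → ℝ), Lorentz B h →
  ∀ (𝒢 : Set ((Fin ρ → ℝ) ≃ₗ[ℝ] (Fin ρ → ℝ))), 𝒢 ⊆ IsoZ B h →
  ∀ E : Set (Fin ρ → ℝ), pcone B h ⊆ E → E ⊆ ncone B h → (∀ t : ℝ, 0 ≤ t → ∀ x ∈ E, t • x ∈ E) →
  ∀ S : Finset (Fin ρ → ℝ), (∀ s ∈ S, s ∈ IntL ρ) → E = ⋃ T ∈ 𝒢, T '' cone S → ∀ e ∈ Pts B h, e ∈ E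

end Pool.Agent.L0h18.LZ
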