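import Pool.Agent.L0h18.LZ.Cov
import Pool.Agent.L0h18.CO.Geo
import Pool.Agent.L0h18.CO.Nef

/-!
# LZ: groups of pseudo-automorphisms which act on `N¹(X)` through a subgroup of finite index of the isometries of
an integral form of signature `(1, ρ - 1)`
-/

set_option autoImplicit false
set_option linter.unusedSectionVars false

open FF Pool.Agent.W602.GT Pool.Agent.Y172 Pool.Agent.R887
open Pool.Agent.Y167 (cone cone_image cone_ind zero_mem_cone mem_cone_self cone_add cone_smul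
  cone_mono)
open Pool.Agent.N110 Pool.Agent.N110.PA Pool.Agent.N110.NV Pool.Agent.N492.PA Pool.Agent.N110.CC
open Pool.Agent.N165.KM (IntL Sandwich HasFD interior_add_mem interior_smul_mem)
open Pool.Agent.L0h18.CO
open Filter Topology

namespace Pool.Agent.L0h18.LZ

section

variable {K : Type} [Field K] [Algebra ℂ K] {N n ρ : ℕ} {y : Fin (N + 1) → K}
  {c : Place ℂ K → Fin ρ → ℤ} {𝒮 𝒯 : Subgroup (K ≃ₐ[ℂ] K)} {B : Matrix (Fin ρ) (Fin ρ) ℤ} {h : Fin ρ → ℝ}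

/-- The modules. -/
structure Mods : Prop where
  bas : S_BAS
  mink : S_MINK
  vert : S_VERT
  fin : S_FIN
  rig : S_RIG
  aut : S_AUT
  cusp : S_CUSP

/-- The closure of the effective cone and the closed movable cone are the closed positive cone. -/
theorem cones_eq (hm : Mods) (hy : NormalModel y) (hn : Algebra.trdeg ℂ K = n) (hn0 : 0 < n)
    (hc : PicardBasis y c) (h𝒮 : ∀ φ ∈ 𝒮, PseudoAut φ y) (hB : Lorentz B h)
    (hG : FinIdx B h (pulls y c 𝒮)) (hρ : 3 ≤ ρ ∨ ∀ e ∈ Pts B h, bil B e e ≠ 0)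
    (hex : (pcone B h ∩ closure (effCone y c)).Nonempty) :
    CE y c = ncone B h ∧ movCone y c = ncone B h := by
  have hpc := pc_eff hc.numClasses
  have hlat := lat hy hc h𝒮
  obtain ⟨x₀, hx₀, hx₀'⟩ := hex
  have hx₀C := closure_eff hy hc hx₀'
  have h1 : CE y c = ncone B h := rig_all hm.bas hm.mink hm.vert hm.fin hm.rig hB hG hρ hpc.closed hpc.add hpc.smul
    hpc.pointed hlat.pres ⟨x₀, hx₀C, hx₀⟩
  obtain ⟨-, -, -, -, hop, hcl, hint', hadd, -, -, -, -, -, iso, -, -⟩ := hm.bas ρ B h hB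
  obtain ⟨i, hi⟩ := hy.ne
  obtain ⟨Hy, hHe, hH⟩ := exists_hyp hy hi
  obtain ⟨g, hg⟩ : ∃ g, g = toR (cls y (cQ c) Hy) := ⟨_, rfl⟩
  have hint : g ∈ interior (CE y c) := hg ▸ hyp_intN hy hc hi hHe hH
  obtain ⟨D, -, hDm, hD⟩ := Pool.Agent.N93.CC.leafHYP K N n ρ y hy hn hn0 c i hi Hy hHe hH
  have hmem : g ∈ movCone y c := by
    rw [hg, ← hD]
    exact subset_closure (coneOf_self ⟨D, hDm, rfl⟩)
  have hsub := mov_sub hy hn hn0 hc
  refine ⟨h1, rig_all hm.bas hm.mink hm.vert hm.fin hm.rig hB hG hρ isClosed_closure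
    (fun x hx z hz => closure_coneOf_add hx hz) (fun t ht x hx => closure_coneOf_smul hx ht)
    (fun x hx hx' => hpc.pointed x (hsub hx) (hsub hx')) (fun T hT x hx => mov_pres hy h𝒮 hT hx) ⟨g, hmem, ?_⟩⟩
  rw [← hint', ← h1]
  exact hint

/-- The closed nef cone is the closed positive cone. -/
theorem nef_eq (hm : Mods) (hy : NormalModel y) (hn : Algebra.trdeg ℂ K = n) (hn0 : 0 < n)
    (hc : PicardBasis y c) (h𝒮 : ∀ φ ∈ 𝒮, IsAut φ y) (hB : Lorentz B h)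
    (hG : FinIdx B h (pulls y c 𝒮)) (hρ : 3 ≤ ρ ∨ ∀ e ∈ Pts B h, bil B e e ≠ 0)
    (hex : (pcone B h ∩ closure (effCone y c)).Nonempty) :
    CE y c = ncone B h ∧ nefCone y n c = ncone B h := by
  have hfr := fun φ hφ => Pool.Agent.N265.CC.leafFREE K N n y hy φ (h𝒮 φ hφ)
  obtain ⟨h1, -⟩ := cones_eq hm hy hn hn0 hc (fun φ hφ => (hfr φ hφ).1) hB hG hρ hex
  have hpc := pc_eff hc.numClasses
  obtain ⟨-, -, -, -, hop, hcl, hint', hadd, -, -, -, -, -, iso, -, -⟩ := hm.bas ρ B h hB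
  obtain ⟨i, hi⟩ := hy.ne
  obtain ⟨Hy, hHe, hH⟩ := exists_hyp hy hi
  obtain ⟨g, hg⟩ : ∃ g, g = toR (cls y (cQ c) Hy) := ⟨_, rfl⟩
  have hint : g ∈ interior (CE y c) := hg ▸ hyp_intN hy hc hi hHe hH
  obtain ⟨D, hDf, -, hD⟩ := Pool.Agent.N93.CC.leafHYP K N n ρ y hy hn hn0 c i hi Hy hHe hH
  have hmem : g ∈ nefCone y n c := by
    rw [hg, ← hD]
    exact subset_closure (coneOf_self ⟨D, hDf, rfl⟩)
  have hsub := nef_sub hy hn hn0 hc
  refine ⟨h1, rig_all hm.bas hm.mink hm.vert hm.fin hm.rig hB hG hρ isClosed_closure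
    (fun x hx z hz => closure_coneOf_add hx hz) (fun t ht x hx => closure_coneOf_smul hx ht)
    (fun x hx hx' => hpc.pointed x (hsub hx) (hsub hx')) (fun T hT x hx => nef_pres hy h𝒮 hT hx) ⟨g, hmem, ?_⟩⟩
  rw [← hint', ← h1]
  exact hint

/-- The fundamental domain. -/
theorem fundL (hm : Mods) (hy : NormalModel y) (hc : PicardBasis y c) (h𝒮𝒯 : 𝒮 ≤ 𝒯)
    (h𝒯 : ∀ φ ∈ 𝒯, PseudoAut φ y) (hB : Lorentz B h) (hG : FinIdx B h (pulls y c 𝒮)) {E : Set (Fin ρ → ℝ)}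
    (hE1 : E ⊆ ncone B h) (hE2 : pcone B h ⊆ E) (hEa : ∀ x ∈ E, ∀ z ∈ E, x + z ∈ E)
    (hEs : ∀ t : ℝ, 0 ≤ t → ∀ x ∈ E, t • x ∈ E) (hEi : ∀ T ∈ pulls y c 𝒯, ∀ x ∈ E, T x ∈ E)
    (hEc : ∀ x ∈ E, ∃ S : Finset (Fin ρ → ℝ), (∀ a ∈ S, a ∈ IntL ρ ∧ a ∈ E) ∧ x ∈ cone S)
    (hP : Pts B h ⊆ E) : HasFundDomain (pulls y c 𝒯) E := by
  classical
  obtain ⟨-, -, -, -, hop, hcl, hint', hadd, -, -, -, -, -, iso, -, -⟩ := hm.bas ρ B h hB
  obtain ⟨M, hM⟩ := exists_rep (𝒮 := 𝒯) hy hc h𝒯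
  obtain ⟨F, hF, hcov⟩ := cov hm.bas hm.mink hm.vert hm.fin hB hG
  have hhP : h ∈ pcone B h := ⟨hB.pos, hB.pos⟩
  obtain ⟨pull, hpull⟩ : ∃ pull : 𝒯 → ((Fin ρ → ℝ) ≃ₗ[ℝ] (Fin ρ → ℝ)),
    ∀ ψ, pull ψ = hM.TE ψ⁻¹ := ⟨_, fun _ => rfl⟩
  have hmemp : ∀ ψ : 𝒯, hM.TE ψ ∈ pulls y c 𝒯 := fun ψ => (mem_pulls hc hM).2 ⟨ψ, rfl⟩
  have hfd : HasFD pull E := by
    refine HasFD.of_cover (C := ncone B h) ⟨by rw [← hcl]; exact isClosed_closure, hadd, ?_, ?_,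
      ⟨h, by rw [hint']; exact hhP⟩, hE1, by rw [hint']; exact hE2, hEa, hEs⟩
      (fun f g => by rw [hpull, hpull, hpull, mul_inv_rev, hM.TE_mul]) (fun f x hx => ?_)
      (fun f x hx => ?_) hEc F (fun a ha => ⟨(hF a ha).1, hP (hF a ha)⟩)
      (fun x hx => ?_)
    · intro t ht x hx
      refine ⟨?_, ?_⟩
      · have : bil B (t • x) (t • x) = t ^ 2 * bil B x x := by
          simp only [bil, Pi.smul_apply, smul_eq_mul, Finset.mul_sum]
          exact Finset.sum_congr rfl fun i _ => Finset.sum_congr rfl fun j _ => by ring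
        rw [this]
        exact mul_nonneg (sq_nonneg t) hx.1
      · have : bil B (t • x) h = t * bil B x h := by
          simp only [bil, Pi.smul_apply, smul_eq_mul, Finset.mul_sum]
          exact Finset.sum_congr rfl fun i _ => Finset.sum_congr rfl fun j _ => by ring
        rw [this]
        exact mul_nonneg ht hx.2
    · intro x hx hx'
      exact hop.pointed x (by rw [hcl]; exact hx) (by rw [hcl]; exact hx')
    · rw [hpull, hM.TE_apply]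
      exact TR_int _ hx
    · rw [hpull]
      exact hEi _ (hmemp _) x hx
    · rw [hint'] at hx
      obtain ⟨T, ⟨ψ, hψ, hT⟩, hTx⟩ := hcov x hx
      have hT' : T ∈ pulls y c 𝒯 := ⟨ψ, h𝒮𝒯 hψ, hT⟩
      obtain ⟨φ, rfl⟩ := (mem_pulls hc hM).1 hT'
      refine ⟨φ⁻¹, ?_⟩
      rw [hpull, inv_inv]
      exact hTx
  obtain ⟨S, hS, hU, hdis⟩ := hfd
  have hset : ∀ T, T ∈ pulls y c 𝒯 ↔ ∃ f : 𝒯, T = pull f := by
    intro T
    rw [mem_pulls hc hM]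
    constructor
    · rintro ⟨ψ, rfl⟩
      exact ⟨ψ⁻¹, by rw [hpull, inv_inv]⟩
    · rintro ⟨f, rfl⟩
      exact ⟨f⁻¹, hpull f⟩
  refine ⟨S, hS, ?_, fun T hT hT1 => ?_⟩
  · rw [hU]
    ext x
    simp only [Set.mem_iUnion]
    constructor
    · rintro ⟨f, hf⟩
      exact ⟨pull f, (hset _).2 ⟨f, rfl⟩, hf⟩
    · rintro ⟨T, hT, hx⟩
      obtain ⟨f, rfl⟩ := (hset T).1 hT
      exact ⟨f, hx⟩
  · obtain ⟨f, rfl⟩ := (hset T).1 hT
    exact hdis f hT1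

end

end Pool.Agent.L0h18.LZ
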