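import Pool.Agent.L0h18.LZ.Geo

/-!
# LZ: fundamental domains
-/

set_option autoImplicit false
set_option linter.unusedSectionVars false

open FF Pool.Agent.W602.GT Pool.Agent.Y172 Pool.Agent.R887
open Pool.Agent.Y167 (cone cone_image cone_ind zero_mem_cone mem_cone_self cone_add cone_smul
  cone_mono)
open Pool.Agent.N110 Pool.Agent.N110.PA Pool.Agent.N110.NV Pool.Agent.N492.PA Pool.Agent.N110.CC
open Pool.Agent.N165.KM (IntL Sandwich HasFD interior_add_mem interior_smul_mem)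
open Pool.Agent.L0h18.CO
open Filter Topology

namespace Pool.Agent.L0h18.LZ

section

variable {K : Type} [Field K] [Algebra ℂ K] {N n ρ : ℕ} {y : Fin (N + 1) → K}
  {c : Place ℂ K → Fin ρ → ℤ} {𝒮 𝒯 : Subgroup (K ≃ₐ[ℂ] K)} {B : Matrix (Fin ρ) (Fin ρ) ℤ} {h : Fin ρ → ℝ}

theorem bil_smul_right (B : Matrix (Fin ρ) (Fin ρ) ℤ) (t : ℝ) (x z : Fin ρ → ℝ) :
    bil B x (t • z) = t * bil B x z := by
  simp only [bil, Pi.smul_apply, smul_eq_mul, Finset.mul_sum]
  exact Finset.sum_congr rfl fun i _ => Finset.sum_congr rfl fun j _ => by ring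

theorem bil_smul_left (B : Matrix (Fin ρ) (Fin ρ) ℤ) (t : ℝ) (x z : Fin ρ → ℝ) :
    bil B (t • x) z = t * bil B x z := by
  simp only [bil, Pi.smul_apply, smul_eq_mul, Finset.mul_sum]
  exact Finset.sum_congr rfl fun i _ => Finset.sum_congr rfl fun j _ => by ring

theorem bil_add_right (B : Matrix (Fin ρ) (Fin ρ) ℤ) (x z w : Fin ρ → ℝ) :
    bil B x (z + w) = bil B x z + bil B x w := by
  simp only [bil, Pi.add_apply, ← Finset.sum_add_distrib]
  exact Finset.sum_congr rfl fun i _ => Finset.sum_congr rfl fun j _ => by ring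

theorem bil_sum_right (B : Matrix (Fin ρ) (Fin ρ) ℤ) (x : Fin ρ → ℝ) (S : Finset (Fin ρ → ℝ))
    (a : (Fin ρ → ℝ) → ℝ) : bil B x (∑ s ∈ S, a s • s) = ∑ s ∈ S, a s * bil B x s := by
  classical
  induction S using Finset.induction_on with
  | empty => simp [bil]
  | insert i s hi ih => rw [Finset.sum_insert hi, Finset.sum_insert hi, bil_add_right, bil_smul_right, ih]

/-- an isotropic vector in the cone generated by `S` is a multiple of an element of `S` -/
theorem isotropic_mem (hb : S_BAS) (hB : Lorentz B h) {S : Finset (Fin ρ → ℝ)} (hS : ∀ s ∈ S, s ∈ ncone B h)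
    {e : Fin ρ → ℝ} (he : e ∈ cone S) (hen : e ∈ ncone B h) (he0 : e ≠ 0) (hee : bil B e e = 0) :
    ∃ s ∈ S, s ≠ 0 ∧ bil B s s = 0 ∧ ∃ t : ℝ, 0 ≤ t ∧ e = t • s := by
  classical
  obtain ⟨-, sg, eqc, -, -, -, -, -, -, -, -, -, -, -, -, -⟩ := hb ρ B h hB
  obtain ⟨a, ha, hea⟩ := he
  have h1 : ∑ s ∈ S, a s * bil B e s = 0 := by
    rw [← bil_sum_right, ← hea, hee]
  have h2 := (Finset.sum_eq_zero_iff_of_nonneg (fun s hs => mul_nonneg (ha s) (sg e hen s (hS s hs)))).1 h1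
  have h3 : ∃ s ∈ S, a s • s ≠ 0 := by
    by_contra hcon
    push Not at hcon
    exact he0 (by rw [hea]; exact Finset.sum_eq_zero hcon)
  obtain ⟨s, hs, hs0⟩ := h3
  have has : a s ≠ 0 := fun h0 => hs0 (by rw [h0, zero_smul])
  have hs1 : s ≠ 0 := fun h0 => hs0 (by rw [h0, smul_zero])
  have h4 : bil B e s = 0 := (mul_eq_zero.1 (h2 s hs)).resolve_left has
  obtain ⟨t, ht, hst⟩ := eqc e hen s (hS s hs) he0 h4
  have ht0 : t ≠ 0 := fun h0 => hs1 (by rw [hst, h0, zero_smul])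
  refine ⟨s, hs, hs1, ?_, t⁻¹, inv_nonneg.2 ht, ?_⟩
  · rw [hst, bil_smul_left, bil_smul_right, hee]
    ring
  · rw [hst, smul_smul, inv_mul_cancel₀ ht0, one_smul]

theorem eff_pres (hy : NormalModel y) (hc : PicardBasis y c) (h𝒯 : ∀ φ ∈ 𝒯, PseudoAut φ y)
    {T : (Fin ρ → ℝ) ≃ₗ[ℝ] (Fin ρ → ℝ)} (hT : T ∈ pulls y c 𝒯) {x : Fin ρ → ℝ} (hx : x ∈ effCone y c) :
    T x ∈ effCone y c := by
  obtain ⟨M, hM⟩ := exists_rep (𝒮 := 𝒯) hy hc h𝒯
  obtain ⟨φ, rfl⟩ := (mem_pulls hc hM).1 hT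
  rw [hM.TE_apply]
  exact presE_S hM _ φ.2 x hx

/-- all pseudo-automorphisms act by isometries -/
theorem pull_iso (hm : Mods) (hy : NormalModel y) (hc : PicardBasis y c) (h𝒯 : ∀ φ ∈ 𝒯, PseudoAut φ y)
    (hB : Lorentz B h) (hCE : CE y c = ncone B h) : pulls y c 𝒯 ⊆ IsoZ B h := by
  intro T hT
  have hlat := lat hy hc h𝒯
  obtain ⟨-, -, -, -, hop, hcl, hint', hadd, -, -, -, -, -, iso, -, -⟩ := hm.bas ρ B h hB
  have key : ∀ S ∈ pulls y c 𝒯, ∀ x ∈ pcone B h, S x ∈ pcone B h := by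
    intro S hS x hx
    rw [← hint', ← hCE] at hx ⊢
    have h2 : IsOpen (S '' interior (CE y c)) :=
      (S.toContinuousLinearEquiv.toHomeomorph.isOpenMap) _ isOpen_interior
    refine interior_maximal ?_ h2 ⟨x, hx, rfl⟩
    rintro _ ⟨z, hz, rfl⟩
    exact hlat.pres S hS z (interior_subset hz)
  refine hm.aut hm.bas ρ B h hB T (fun x hx => hlat.int T hT x hx)
    (fun x hx => hlat.int _ (hlat.symm T hT) x hx) fun x => ⟨fun hx => ?_, fun hx => key T hT x hx⟩
  have h1 := key _ (hlat.symm T hT) _ hx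
  rwa [LinearEquiv.symm_apply_apply] at h1

/-- **main theorem** -/
theorem main (hm : Mods) (hy : NormalModel y) (hc : PicardBasis y c) (h𝒮𝒯 : 𝒮 ≤ 𝒯)
    (h𝒯 : ∀ φ ∈ 𝒯, PseudoAut φ y) (hB : Lorentz B h) (hG : FinIdx B h (pulls y c 𝒮))
    (hCE : CE y c = ncone B h) {A : Set (Fin ρ → ℝ)} (hA : A = ncone B h) :
    (HasFundDomain (pulls y c 𝒯) (A ∩ effCone y c) ↔
      ∀ e : Fin ρ → ℝ, (∀ i, ∃ m : ℤ, e i = (m : ℝ)) → e ∈ ncone B h → e ∈ effCone y c) ∧
    HasFundDomain (pulls y c 𝒯) (coneOf {x : Fin ρ → ℝ | (∀ i, ∃ m : ℤ, x i = (m : ℝ)) ∧ x ∈ A}) ∧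
    ∃ F : Finset (Fin ρ → ℝ), (∀ e ∈ F, (∀ i, ∃ m : ℤ, e i = (m : ℝ)) ∧ e ∈ ncone B h ∧ bil B e e = 0) ∧
      (HasFundDomain (pulls y c 𝒯) (A ∩ effCone y c) ↔ ∀ e ∈ F, e ∈ effCone y c) := by
  classical
  have hbas := hm.bas ρ B h hB
  obtain ⟨-, -, eqc, -, hop, hcl, hint', hadd, -, -, -, -, -, iso, -, -⟩ := hbas
  have hpc := pc_eff hc.numClasses
  have hlat := lat hy hc h𝒯
  obtain ⟨hE1, hE2⟩ := Pool.Agent.N40.CC.leafEFF K N ρ y hy c hc
  have hAE : A ∩ effCone y c = effCone y c := by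
    rw [hA, ← hCE]
    exact Set.inter_eq_right.2 hE1
  have hPE : pcone B h ⊆ effCone y c := by
    rw [← hint', ← hCE]
    exact hE2
  have hEn : effCone y c ⊆ ncone B h := by
    rw [← hCE]
    exact hE1
  have hiso := pull_iso hm hy hc h𝒯 hB hCE
  -- (⇐)
  have hback : (∀ e ∈ Pts B h, e ∈ effCone y c) → HasFundDomain (pulls y c 𝒯) (effCone y c) := by
    intro hall
    refine fundL hm hy hc h𝒮𝒯 h𝒯 hB hG hEn hPE (fun x hx z hz => coneOf_add hx hz)
      (fun t ht x hx => coneOf_smul hx ht) (fun T hT x hx => eff_pres hy hc h𝒯 hT hx) (fun x hx => ?_) hall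
    obtain ⟨S, hS, hx⟩ := hx
    refine ⟨S, fun a ha => ?_, hx⟩
    obtain ⟨P, hP, h1⟩ := hS ha
    refine ⟨?_, coneOf_self ⟨P, hP, h1⟩⟩
    rw [h1]
    exact fun i => ⟨c P i, rfl⟩
  have hzero : (0 : Fin ρ → ℝ) ∈ effCone y c := coneOf_zero _
  have hiff : HasFundDomain (pulls y c 𝒯) (effCone y c) ↔
      ∀ e : Fin ρ → ℝ, (∀ i, ∃ m : ℤ, e i = (m : ℝ)) → e ∈ ncone B h → e ∈ effCone y c := by
    constructor
    · rintro ⟨S, hS, hU, -⟩ e he hen
      by_cases he0 : e = 0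
      · rw [he0]
        exact hzero
      · exact hm.cusp hm.bas ρ B h hB (pulls y c 𝒯) hiso (effCone y c) hPE hEn (fun t ht x hx => coneOf_smul hx ht) S
          hS hU e ⟨he, he0, hen⟩
    · intro hall
      exact hback fun e he => hall e he.1 he.2.2
  -- the rational hull
  have hplus : HasFundDomain (pulls y c 𝒯) (coneOf {x : Fin ρ → ℝ | (∀ i, ∃ m : ℤ, x i = (m : ℝ)) ∧ x ∈ A}) := by
    rw [hA]
    refine fundL hm hy hc h𝒮𝒯 h𝒯 hB hG ?_ (fun x hx => ?_) (fun x hx z hz => coneOf_add hx hz)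
      (fun t ht x hx => coneOf_smul hx ht) (fun T hT x hx => ?_) (fun x hx => ?_)
      (fun e he => coneOf_self ⟨he.1, he.2.2⟩)
    · intro x hx
      rw [← hCE]
      exact coneOf_ind (p := fun x => x ∈ CE y c)
        (by have := hpc.smul 0 le_rfl _ (hE1 hzero); rwa [smul_zero] at this)
        (fun x z hx hz => hpc.add x hx z hz) (fun t x ht hx => hpc.smul t ht x hx)
        (fun a ha => by rw [hCE]; exact ha.2) hx
    · obtain ⟨u, -, F, hF, hxF⟩ := hm.vert hm.bas hm.mink ρ B h hB x hx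
      exact ⟨F, fun a ha => ⟨(hF a ha).1.1, (hF a ha).1.2.2⟩, hxF⟩
    · exact coneOf_map (T : (Fin ρ → ℝ) →ₗ[ℝ] (Fin ρ → ℝ))
        (B := {x : Fin ρ → ℝ | (∀ i, ∃ m : ℤ, x i = (m : ℝ)) ∧ x ∈ ncone B h})
        (fun a ha => ⟨hlat.int T hT a ha.1, ((iso T (hiso hT)).2 a).2 ha.2⟩) hx
    · obtain ⟨S, hS, hx⟩ := hx
      exact ⟨S, fun a ha => ⟨(hS ha).1, coneOf_self (hS ha)⟩, hx⟩
  refine ⟨by rw [hAE]; exact hiff, hplus, ?_⟩
  obtain ⟨S, hS, hU, -⟩ := hplus
  rw [hAE]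
  refine ⟨S.filter (fun s => s ∈ ncone B h ∧ bil B s s = 0), fun e he => ?_, ?_⟩
  · rw [Finset.mem_filter] at he
    exact ⟨hS e he.1, he.2.1, he.2.2⟩
  · rw [hiff]
    constructor
    · intro hall e he
      rw [Finset.mem_filter] at he
      exact hall e (hS e he.1) he.2.1
    · intro hall e he hen
      by_cases hee : 0 < bil B e e
      · refine hPE ⟨hee, lt_of_le_of_ne hen.2 fun h0 => ?_⟩
        have he0 : e ≠ 0 := by
          intro h1
          rw [h1] at hee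
          simp [bil] at hee
        have := hB.neg e h0.symm he0
        linarith
      · by_cases he0 : e = 0
        · rw [he0]
          exact hzero
        · have hee' : bil B e e = 0 := le_antisymm (not_lt.1 hee) hen.1
          have h1 : e ∈ coneOf {x : Fin ρ → ℝ | (∀ i, ∃ m : ℤ, x i = (m : ℝ)) ∧ x ∈ A} := coneOf_self ⟨he, by rw [hA]; exact hen⟩
          rw [hU] at h1
          simp only [Set.mem_iUnion, Set.mem_image] at h1
          obtain ⟨T, hT, z, hz, hTz⟩ := h1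
          have hT1 : ∀ s ∈ S, s ∈ ncone B h := by
            intro s hs
            have h2 : T s ∈ coneOf {x : Fin ρ → ℝ | (∀ i, ∃ m : ℤ, x i = (m : ℝ)) ∧ x ∈ A} := by
              rw [hU]
              simp only [Set.mem_iUnion, Set.mem_image]
              exact ⟨T, hT, s, mem_cone_self hs, rfl⟩
            have h3 : T s ∈ ncone B h := by
              rw [← hCE]
              exact coneOf_ind (p := fun x => x ∈ CE y c)
                (by have := hpc.smul 0 le_rfl _ (hE1 hzero); rwa [smul_zero] at this)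
                (fun x z hx hz => hpc.add x hx z hz) (fun t x ht hx => hpc.smul t ht x hx)
                (fun a ha => by rw [hCE, ← hA]; exact ha.2) h2
            exact ((iso T (hiso hT)).2 s).1 h3
          have hz0 : z ≠ 0 := fun h2 => he0 (by rw [← hTz, h2, map_zero])
          have hzn : z ∈ ncone B h := ((iso T (hiso hT)).2 z).1 (by rw [hTz]; exact hen)
          have hzz : bil B z z = 0 := by
            rw [← (hiso hT).2.2.1 z z, hTz]
            exact hee'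
          obtain ⟨s, hs, hs0, hss, t, ht, hzt⟩ := isotropic_mem hm.bas hB hT1 hz hzn hz0 hzz
          have h4 : s ∈ effCone y c := hall s (Finset.mem_filter.2 ⟨hs, hT1 s hs, hss⟩)
          rw [← hTz, hzt]
          exact eff_pres hy hc h𝒯 hT (coneOf_smul h4 ht)

end

end Pool.Agent.L0h18.LZ
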