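import Pool.Agent.L0h18.LZ.Defs

/-!
# LZ: the two halves of BAS
-/

set_option autoImplicit false

open Pool.Agent.N165.KM (IntL)

namespace Pool.Agent.L0h18.LZ

/-- BAS1: signs, duality, bounds, forms -/
def S_BAS1 : Prop := ∀ (ρ : ℕ) (B : Matrix (Fin ρ) (Fin ρ) ℤ) (h : Fin ρ → ℝ), Lorentz B h →
  (∀ x ∈ pcone B h, ∀ y ∈ ncone B h, y ≠ 0 → 0 < bil B x y) ∧ (∀ x ∈ ncone B h, ∀ y ∈ ncone B h, 0 ≤ bil B x y) ∧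
  (∀ x ∈ ncone B h, ∀ y ∈ ncone B h, x ≠ 0 → bil B x y = 0 → ∃ t : ℝ, 0 ≤ t ∧ y = t • x) ∧
  (∀ x, (∀ y ∈ ncone B h, 0 ≤ bil B x y) → x ∈ ncone B h) ∧
  (∀ x ∈ ncone B h, ∀ y ∈ ncone B h, x + y ∈ ncone B h) ∧
  (∀ x, (∀ y, bil B x y = 0) → x = 0) ∧
  (∀ u ∈ pcone B h, bil B u u = 1 → ∀ x, x ≠ 0 → 0 < 2 * bil B u x ^ 2 - bil B x x) ∧
  (∀ u ∈ pcone B h, bil B u u = 1 → ∀ x ∈ ncone B h, ∀ y ∈ ncone B h, |bil B x y| ≤ 2 * bil B u x * bil B u y)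

/-- BAS2: topology, bounds, isometries -/
def S_BAS2 : Prop := S_BAS1 → ∀ (ρ : ℕ) (B : Matrix (Fin ρ) (Fin ρ) ℤ) (h : Fin ρ → ℝ), Lorentz B h →
  Pool.Agent.L0h18.CO.IsOpenCone (pcone B h) ∧ closure (pcone B h) = ncone B h ∧ interior (ncone B h) = pcone B h ∧
  (∀ u ∈ pcone B h, ∃ c : ℝ, 0 < c ∧ ∀ x ∈ ncone B h, c * ‖x‖ ≤ bil B u x) ∧
  (∀ u ∈ pcone B h, ∀ d, ∃ C : ℝ, 0 < C ∧ ∀ x ∈ ncone B h, |bil B d x| ≤ C * bil B u x) ∧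
  (∀ T ∈ IsoZ B h, (∀ x, T x ∈ pcone B h ↔ x ∈ pcone B h) ∧ (∀ x, T x ∈ ncone B h ↔ x ∈ ncone B h)) ∧
  (∀ T ∈ IsoZ B h, T⁻¹ ∈ IsoZ B h) ∧ (∀ S ∈ IsoZ B h, ∀ T ∈ IsoZ B h, S * T ∈ IsoZ B h)

theorem bas_of (h1 : S_BAS1) (h2 : S_BAS2) : S_BAS := by
  intro ρ B h hB
  obtain ⟨a1, a2, a3, a4, a5, a6, a7, a8⟩ := h1 ρ B h hB
  obtain ⟨b1, b2, b3, b4, b5, b6, b7, b8⟩ := h2 h1 ρ B h hB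
  exact ⟨a1, a2, a3, a4, b1, b2, b3, a5, a6, b4, b5, a7, a8, b6, b7, b8⟩

end Pool.Agent.L0h18.LZ
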